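import Mathlib

namespace Pool.Agent.H.MP_01d06f_an
open MeasureTheory Set Filter Topology
open scoped InnerProductSpace

theorem simons {E : Type} [NormedAddCommGroup E] [NormedSpace ℝ E] [CompleteSpace E] (x : ℕ → E)
    {K δ : ℝ} (hx : ∀ n, ‖x n‖ ≤ K) (hδ : 0 < δ) (h1 : ∀ y ∈ convexHull ℝ (range x), δ ≤ ‖y‖)
    (h2 : ∀ v : E, ∃ g : E →L[ℝ] ℝ, g v = ‖v‖ ∧ (∀ y, g y ≤ ‖y‖) ∧
      Tendsto (fun n => g (x n)) atTop (𝓝 0)) : False := by
  set C := fun n => convexHull ℝ (x '' Ici n) with hC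
  have : ∀ (n : ℕ) (v : E), ∃ y ∈ C n, ∀ w ∈ C n, ‖v + (1 / 2 : ℝ) ^ n • y‖ ≤
      ‖v + (1 / 2 : ℝ) ^ n • w‖ + δ / 12 * (1 / 2) ^ n * (1 / 2) ^ n := fun n v => by
    obtain ⟨_, ⟨y, hy, rfl⟩, h⟩ := exists_lt_of_csInf_lt
      (s := (fun y => ‖v + (1 / 2 : ℝ) ^ n • y‖) '' C n)
      ⟨_, x n, subset_convexHull _ _ ⟨n, self_mem_Ici, rfl⟩, rfl⟩
      (lt_add_of_pos_right _ (show 0 < δ / 12 * (1 / 2) ^ n * (1 / 2) ^ n by positivity))
    exact ⟨y, hy, fun w hw => h.le.trans (add_le_add_left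
      (csInf_le ⟨0, by rintro _ ⟨_, -, rfl⟩; positivity⟩ (mem_image_of_mem _ hw)) _)⟩
  choose Y hY hY' using this
  let v : ℕ → E := fun n => Nat.rec 0 (fun n v => v + (1 / 2 : ℝ) ^ n • Y n v) n
  let y := fun n => Y n (v n)
  have hv : ∀ n, v (n + 1) = v n + (1 / 2 : ℝ) ^ n • y n := fun _ => rfl
  have hy : ∀ n, y n ∈ C n := fun n => hY _ _
  have cm : ∀ n, C (n + 1) ⊆ C n := fun n => convexHull_mono (image_mono (Ici_subset_Ici.2 n.le_succ))
  have key : ∀ n, (δ / 2 + δ / 2 * (1 / 2) ^ n) * (1 / 2) ^ n ≤ ‖v (n + 1)‖ - ‖v n‖ := fun n => by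
    induction n with
    | zero =>
      have := h1 _ (convexHull_mono (image_subset_range _ _) (hy 0))
      rw [hv]; simp [v]; linarith
    | succ n ih =>
      have h3 := hY' n (v n) _ (convex_convexHull ℝ _ (hy n) (cm n (hy (n + 1)))
        (show (0 : ℝ) ≤ 2 / 3 by norm_num) (show (0 : ℝ) ≤ 1 / 3 by norm_num) (by norm_num))
      have e : v n + (1 / 2 : ℝ) ^ n • ((2 / 3 : ℝ) • y n + (1 / 3 : ℝ) • y (n + 1)) =
          (1 / 3 : ℝ) • v n + (2 / 3 : ℝ) • v (n + 1 + 1) := by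
        rw [hv (n + 1), hv n, pow_succ]; module
      have h4 := norm_add_le ((1 / 3 : ℝ) • v n) ((2 / 3 : ℝ) • v (n + 1 + 1))
      rw [norm_smul, norm_smul, Real.norm_of_nonneg (by norm_num),
        Real.norm_of_nonneg (by norm_num)] at h4
      rw [e, ← hv] at h3
      rw [pow_succ]
      linarith
  have hs : ∀ n, v n = ∑ k ∈ Finset.range n, (1 / 2 : ℝ) ^ k • y k := fun n => by
    induction n with
    | zero => rfl
    | succ n ih => rw [hv, Finset.sum_range_succ, ← ih]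
  have sm : Summable fun k => (1 / 2 : ℝ) ^ k • y k :=
    .of_norm_bounded (summable_geometric_two.mul_right K) fun k => by
      rw [norm_smul, Real.norm_of_nonneg (by positivity)]
      gcongr
      exact mem_closedBall_zero_iff.1 (convexHull_min (by
        rintro _ ⟨n, -, rfl⟩; exact mem_closedBall_zero_iff.2 (hx n)) (convex_closedBall 0 K) (hy k))
  have l := sm.hasSum.tendsto_sum_nat
  simp only [← hs] at l
  obtain ⟨g, g1, g2, g3⟩ := h2 (∑' k, (1 / 2 : ℝ) ^ k • y k)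
  obtain ⟨N, hN⟩ := eventually_atTop.1 (g3.eventually (ge_mem_nhds (show 0 < δ / 4 by positivity)))
  have g4 : ∀ k, N ≤ k → g (y k) ≤ δ / 4 := fun k hk => convexHull_min (by
    rintro _ ⟨n, hn, rfl⟩; exact hN n (hk.trans hn)) (convex_halfSpace_le g.isLinear (δ / 4)) (hy k)
  have h3 : ∀ n, N + 1 ≤ n → δ / 4 * (1 / 2) ^ N ≤ ‖v n‖ - g (v n) := fun n hn => by
    have st : ∀ k, N ≤ k → ‖v k‖ - g (v k) + δ / 4 * (1 / 2) ^ k ≤ ‖v (k + 1)‖ - g (v (k + 1)) :=
      fun k hk => by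
        have := key k
        have h5 := mul_le_mul_of_nonneg_left (g4 k hk) (show (0 : ℝ) ≤ (1 / 2) ^ k by positivity)
        have : 0 ≤ δ / 2 * (1 / 2) ^ k * (1 / 2) ^ k := by positivity
        rw [hv k, map_add, map_smul, smul_eq_mul, ← hv]
        linarith
    induction n, hn using Nat.le_induction with
    | base => linarith [st N le_rfl, g2 (v N)]
    | succ n hn ih => linarith [st n (by omega), show 0 ≤ δ / 4 * (1 / 2) ^ n by positivity]
  have := ge_of_tendsto (l.norm.sub ((g.continuous.tendsto _).comp l))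
    (eventually_atTop.2 ⟨_, h3⟩)
  linarith [show 0 < δ / 4 * (1 / 2) ^ N by positivity]

lemma wnull {H : Type} [NormedAddCommGroup H] [InnerProductSpace ℝ H] (u : ℕ → H) {C : ℝ}
    (hu : ∀ k, ‖u k‖ ≤ C) (ho : ∀ j k, j < k → ⟪u j, u k⟫_ℝ = 0) (z : H) :
    Tendsto (fun k => ⟪u k, z⟫_ℝ) atTop (𝓝 0) := by
  have h1 : ∀ (c : ℕ → ℝ) n, ‖∑ k ∈ Finset.range n, c k • u k‖ ^ 2 ≤
      C ^ 2 * ∑ k ∈ Finset.range n, c k ^ 2 := fun c n => by
    induction n with
    | zero => simp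
    | succ n ih =>
      rw [Finset.sum_range_succ, Finset.sum_range_succ, norm_add_sq_real, sum_inner,
        Finset.sum_eq_zero (f := fun k => ⟪c k • u k, c n • u n⟫_ℝ) fun k hk => by
          rw [real_inner_smul_left, real_inner_smul_right, ho k n (Finset.mem_range.1 hk)]; simp,
        norm_smul, mul_pow, Real.norm_eq_abs, sq_abs]
      have := pow_le_pow_left₀ (norm_nonneg _) (hu n) 2
      nlinarith [sq_nonneg (c n)]
  have h2 : Summable fun k => ⟪u k, z⟫_ℝ ^ 2 :=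
    summable_of_sum_range_le (c := C ^ 2 * ‖z‖ ^ 2) (fun _ => sq_nonneg _) fun n => by
      have h3 := h1 (fun k => ⟪u k, z⟫_ℝ) n
      have h4 := real_inner_mul_inner_self_le (∑ k ∈ Finset.range n, ⟪u k, z⟫_ℝ • u k) z
      rw [real_inner_self_eq_norm_sq, real_inner_self_eq_norm_sq, sum_inner] at h4
      simp only [real_inner_smul_left, ← sq] at h4
      have h5 : 0 ≤ ∑ k ∈ Finset.range n, ⟪u k, z⟫_ℝ ^ 2 := by positivity
      generalize ∑ k ∈ Finset.range n, ⟪u k, z⟫_ℝ ^ 2 = S at *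
      rcases h5.eq_or_lt with h | h
      · rw [← h]; positivity
      · exact le_of_mul_le_mul_left (by nlinarith [sq_nonneg ‖z‖]) h
  rw [tendsto_zero_iff_abs_tendsto_zero]
  simpa [Function.comp_def, Real.sqrt_sq_eq_abs] using h2.tendsto_atTop_zero.sqrt

variable {Ω : Type} [MeasurableSpace Ω] {ν : Measure Ω} [IsFiniteMeasure ν]

lemma exh (P : Set Ω → Prop) {E : Set Ω} (mE : MeasurableSet E) (h0 : ∀ F, ν F = 0 → P F)
    (h : ∀ F ⊆ E, MeasurableSet F → ν F ≠ 0 → ∃ G ⊆ F, MeasurableSet G ∧ ν G ≠ 0 ∧ P G) :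
    ∃ D : ℕ → Set Ω, (∀ n, MeasurableSet (D n) ∧ P (D n)) ∧ ⋃ n, D n = E := by
  obtain ⟨D, h1, h2, h3⟩ := ν.exists_ae_subset_biUnion_countable
    (C := {G | G ⊆ E ∧ MeasurableSet G ∧ P G}) fun s hs => hs.2.1
  have mD : MeasurableSet (⋃₀ D) := .sUnion h2 fun s hs => (h1 hs).2.1
  have h4 : ν (E \ ⋃₀ D) = 0 := by
    by_contra hn
    obtain ⟨G, g1, g2, g3, g4⟩ := h _ diff_subset (mE.diff mD) hn
    refine g3 (measure_mono_null (fun x hx => ?_) (ae_le_set.1 (h3 G ⟨g1.trans diff_subset, g2, g4⟩)))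
    exact ⟨hx, (g1 hx).2⟩
  obtain ⟨f, hf⟩ := (h2.insert (E \ ⋃₀ D)).exists_eq_range (insert_nonempty _ _)
  refine ⟨f, fun n => ?_, ?_⟩
  · rcases (hf ▸ mem_range_self n : f n ∈ insert _ D) with e | e
    · rw [e]; exact ⟨mE.diff mD, h0 _ h4⟩
    · exact (h1 e).2
  · rw [← sUnion_range, ← hf, sUnion_insert, diff_union_of_subset (sUnion_subset fun s hs => (h1 hs).1)]

lemma third (na : ∀ A, MeasurableSet A → 0 < ν A → ∃ B ⊆ A, MeasurableSet B ∧ 0 < ν B ∧ ν B < ν A)
    {A : Set Ω} (mA : MeasurableSet A) (hA : ν A ≠ 0) :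
    ∃ B ⊆ A, MeasurableSet B ∧ ν.real A ≤ 3 * ν.real B ∧ ν.real A ≤ 3 * ν.real (A \ B) := by
  have pos : ∀ {F}, ν F ≠ 0 → 0 < ν.real F := fun h => ENNReal.toReal_pos h (measure_ne_top _ _)
  have sm : ∀ (n : ℕ) F, MeasurableSet F → ν F ≠ 0 →
      ∃ G ⊆ F, MeasurableSet G ∧ ν G ≠ 0 ∧ ν.real G ≤ (1 / 2) ^ n * ν.real F := fun n F mF hF => by
    induction n with
    | zero => exact ⟨F, subset_rfl, mF, hF, by simp⟩
    | succ n ih =>
      obtain ⟨G, g1, g2, g3, g4⟩ := ih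
      obtain ⟨B, b1, b2, b3, b4⟩ := na G g2 (pos_iff_ne_zero.2 g3)
      have e := measureReal_diff b1 b2 (measure_ne_top ν _)
      rw [pow_succ]
      by_cases h : ν.real B ≤ ν.real G / 2
      · exact ⟨B, b1.trans g1, b2, b3.ne', by linarith⟩
      · refine ⟨G \ B, diff_subset.trans g1, g2.diff b2, ?_, by linarith⟩
        rw [measure_diff b1 b2.nullMeasurableSet (measure_ne_top _ _)]
        exact (tsub_pos_of_lt b4).ne'
  have a0 := pos hA
  obtain ⟨D, h1, h2⟩ := exh (ν := ν) (fun G => ν.real G ≤ ν.real A / 3) mA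
    (fun F h => by rw [measureReal_def, h, ENNReal.toReal_zero]; positivity) fun F hF mF h => by
      obtain ⟨G, g1, g2, g3, g4⟩ := sm 2 F mF h
      exact ⟨G, g1, g2, g3, by linarith [measureReal_mono hF (measure_ne_top ν _)]⟩
  have l := (ENNReal.tendsto_toReal (measure_ne_top ν _)).comp
    (tendsto_measure_iUnion_accumulate (μ := ν) (f := D))
  have hex : ∃ n, ν.real A / 3 ≤ ν.real (accumulate D n) :=
    (l.eventually (le_mem_nhds (show ν.real A / 3 < ν.real (⋃ n, D n) by rw [h2]; linarith))).exists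
  classical
  have h3 : ν.real A / 3 ≤ ν.real (accumulate D (Nat.find hex)) := Nat.find_spec hex
  have mB : MeasurableSet (accumulate D (Nat.find hex)) := .biUnion (to_countable _) fun n _ => (h1 n).1
  have sB : accumulate D (Nat.find hex) ⊆ A := (accumulate_subset_iUnion _).trans h2.subset
  refine ⟨_, sB, mB, by linarith, ?_⟩
  rw [measureReal_diff sB mB]
  suffices ν.real (accumulate D (Nat.find hex)) ≤ 2 * (ν.real A / 3) by linarith
  rcases (Nat.find hex).eq_zero_or_eq_succ_pred with e | e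
  · rw [e, accumulate_zero_nat]; linarith [(h1 0).2]
  · have h4 : ¬ ν.real A / 3 ≤ ν.real (accumulate D (Nat.find hex).pred) :=
      Nat.find_min hex (by omega)
    rw [e, Nat.succ_eq_add_one, accumulate_succ]
    linarith [measureReal_union_le (μ := ν) (accumulate D (Nat.find hex).pred)
      (D ((Nat.find hex).pred + 1)), (h1 ((Nat.find hex).pred + 1)).2]

variable {Y : Type} [NormedAddCommGroup Y] [NormedSpace ℝ Y] [CompleteSpace Y]

theorem rieffel (m : VectorMeasure Ω Y) (hm : ∀ G, ‖m G‖ ≤ ν.real G)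
    (h : ∀ ε > 0, ∀ E, MeasurableSet E → ν E ≠ 0 → ∃ F ⊆ E, MeasurableSet F ∧ ν F ≠ 0 ∧
      ∃ y, ∀ G ⊆ F, MeasurableSet G → ‖m G - ν.real G • y‖ ≤ ε * ν.real G) :
    ∃ f, Integrable f ν ∧ ∀ s, MeasurableSet s → m s = ∫ t in s, f t ∂ν := by
  have pos : ∀ {F}, ν F ≠ 0 → 0 < ν.real F := fun h => ENNReal.toReal_pos h (measure_ne_top _ _)
  have : ∀ ε > 0, ∃ (ι : Ω → ℕ) (y : ℕ → Y), Measurable ι ∧
      ∀ n, ∀ G ⊆ ι ⁻¹' {n}, MeasurableSet G → ‖m G - ν.real G • y n‖ ≤ ε * ν.real G := fun ε hε => by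
    obtain ⟨D, h1, h2⟩ := exh (ν := ν) (fun F => ∃ y, ∀ G ⊆ F, MeasurableSet G →
      ‖m G - ν.real G • y‖ ≤ ε * ν.real G) .univ (fun F hF => ⟨0, fun G hG _ => by
        have : ν.real G = 0 := by rw [measureReal_def, measure_mono_null hG hF, ENNReal.toReal_zero]
        simpa [this] using hm G⟩) fun F _ => h ε hε F
    choose h1 y hy using h1
    classical
    have hex : ∀ t, ∃ n, t ∈ D n := fun t => mem_iUnion.1 (h2 ▸ mem_univ t)
    exact ⟨fun t => Nat.find (hex t), y, measurable_find hex h1, fun n G hG =>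
      hy n G fun t ht => (show Nat.find (hex t) = n from hG ht) ▸ Nat.find_spec (hex t)⟩
  choose ι y mι hy using fun n : ℕ => this ((1 / 2) ^ n) (by positivity)
  have cell : ∀ i j, ∀ᵐ t ∂ν, ν (ι i ⁻¹' {ι i t} ∩ ι j ⁻¹' {ι j t}) ≠ 0 := fun i j => by
    have : ∀ p : ℕ × ℕ, ∀ᵐ t ∂ν, t ∈ ι i ⁻¹' {p.1} ∩ ι j ⁻¹' {p.2} →
        ν (ι i ⁻¹' {p.1} ∩ ι j ⁻¹' {p.2}) ≠ 0 := fun p => by
      by_cases h : ν (ι i ⁻¹' {p.1} ∩ ι j ⁻¹' {p.2}) = 0
      · filter_upwards [measure_eq_zero_iff_ae_notMem.1 h] with t h1 h2 using absurd h2 h1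
      · exact .of_forall fun _ _ => h
    filter_upwards [ae_all_iff.2 this] with t ht using ht (ι i t, ι j t) ⟨rfl, rfl⟩
  have ms : ∀ i n, MeasurableSet (ι i ⁻¹' {n}) := fun i n => mι i (measurableSet_singleton n)
  have int : ∀ i, Integrable (fun t => y i (ι i t)) ν := fun i => by
    refine .of_bound (StronglyMeasurable.of_discrete.comp_measurable (mι i)).aestronglyMeasurable
      (1 + (1 / 2) ^ i) ?_
    filter_upwards [cell i i] with t ht
    rw [inter_self] at ht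
    have h1 := hy i _ _ subset_rfl (ms i (ι i t))
    have h2 := norm_sub_norm_le _ _ |>.trans ((norm_sub_rev _ _).trans_le h1)
    rw [norm_smul, Real.norm_of_nonneg measureReal_nonneg] at h2
    exact le_of_mul_le_mul_left (by linarith [hm (ι i ⁻¹' {ι i t})]) (pos ht)
  have cau : CauchySeq fun i => (int i).toL1 _ := by
    refine cauchySeq_of_le_geometric (1 / 2) (2 * ν.real univ) (by norm_num) fun i => ?_
    rw [dist_eq_norm, ← Integrable.toL1_sub, Integrable.norm_toL1_eq_lintegral_norm,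
      ← integral_eq_lintegral_of_nonneg_ae (.of_forall fun _ => norm_nonneg _)
        ((int i).sub (int _)).norm.1]
    refine (integral_mono_ae ((int i).sub (int _)).norm (integrable_const (2 * (1 / 2) ^ i)) ?_).trans
      (by simp; ring_nf; rfl)
    filter_upwards [cell i (i + 1)] with t ht
    have mG := (ms i (ι i t)).inter (ms (i + 1) (ι (i + 1) t))
    have h1 := hy i _ _ inter_subset_left mG
    have h2 := hy (i + 1) _ _ inter_subset_right mG
    have h3 := (norm_sub_le _ _).trans (add_le_add h2 h1)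
    rw [sub_sub_sub_cancel_left, ← smul_sub, norm_smul, Real.norm_of_nonneg measureReal_nonneg,
      pow_succ] at h3
    have := pos ht
    exact le_of_mul_le_mul_left (by
      simp only [Pi.sub_apply]; nlinarith [show (0 : ℝ) < (1 / 2) ^ i by positivity]) this
  obtain ⟨f, hf⟩ := cauchySeq_tendsto_of_complete cau
  refine ⟨f, L1.integrable_coeFn f, fun s ms' => ?_⟩
  have l1 := ((continuous_setIntegral s).tendsto f).comp hf
  refine tendsto_nhds_unique (tendsto_iff_norm_sub_tendsto_zero.2 (squeeze_zero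
    (fun _ => norm_nonneg _) (g := fun i : ℕ => (1 / 2) ^ i * ν.real s) (fun i => ?_) ?_)) l1
  · have dj : Pairwise (Function.onFun Disjoint fun n => s ∩ ι i ⁻¹' {n}) := fun a b hab =>
      disjoint_left.2 fun t h1 h2 => hab (h1.2.symm.trans h2.2)
    have mm := fun n => ms'.inter (ms i n)
    have eu : ⋃ n, s ∩ ι i ⁻¹' {n} = s := by ext t; simp
    have s1 := m.m_iUnion mm dj
    have s2 := hasSum_integral_iUnion mm dj (int i).integrableOn
    have s3 := (hasSum_integral_iUnion mm dj (integrable_const (μ := ν) (1 : ℝ)).integrableOn).mul_left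
      ((1 / 2 : ℝ) ^ i)
    simp only [eu, setIntegral_const, smul_eq_mul, mul_one] at s1 s2 s3
    rw [Function.comp, setIntegral_congr_ae ms' ((int i).coeFn_toL1.mono fun _ h _ => h), norm_sub_rev]
    refine (s1.sub s2).norm_le_of_bounded s3 fun n => ?_
    rw [setIntegral_congr_fun (mm n) (g := fun _ => y i n) fun t ht => by
      simp only [show ι i t = n from ht.2], setIntegral_const]
    exact hy i n _ inter_subset_right (mm n)
  · simpa using (tendsto_pow_atTop_nhds_zero_of_lt_one (r := (1 / 2 : ℝ)) (by norm_num)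
      (by norm_num)).mul_const (ν.real s)

end Pool.Agent.H.MP_01d06f_an
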