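import Pool.Agent.H.MP_01d06f_an.A

namespace Pool.Agent.H.MP_01d06f_an
open MeasureTheory Set Filter Topology RCLike
open scoped InnerProductSpace ENNReal

variable {𝕜 X Ω Ω' : Type} [RCLike 𝕜] [NormedAddCommGroup X] [NormedSpace 𝕜 X] [NormedSpace ℝ X]
  [IsScalarTower ℝ 𝕜 X] [MeasurableSpace Ω] [MeasurableSpace Ω'] {μ : Measure Ω}
  [IsProbabilityMeasure μ] {ν : Measure Ω'} [IsFiniteMeasure ν]

noncomputable def R (y : X →L[𝕜] 𝕜) : X →L[ℝ] ℝ := reCLM ∘L y.restrictScalars ℝ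

lemma R_le (y : X →L[𝕜] 𝕜) (x : X) : |R y x| ≤ ‖y‖ * ‖x‖ := (abs_re_le_norm _).trans (y.le_opNorm x)

lemma possub (m : VectorMeasure Ω' (X →L[𝕜] 𝕜)) (hm : ∀ G, ‖m G‖ ≤ ν.real G) (x : X) (c : ℝ)
    {G : Set Ω'} (mG : MeasurableSet G) (h : c * ν.real G < R (m G) x) :
    ∃ F ⊆ G, MeasurableSet F ∧ ν F ≠ 0 ∧ ∀ H ⊆ F, MeasurableSet H → c * ν.real H ≤ R (m H) x := by
  let σ : SignedMeasure Ω' := c • ν.toSignedMeasure - m.mapRange
    ((reCLM ∘L (ContinuousLinearMap.apply 𝕜 𝕜 x).restrictScalars ℝ :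
      (X →L[𝕜] 𝕜) →L[ℝ] ℝ) : (X →L[𝕜] 𝕜) →+ ℝ) (ContinuousLinearMap.continuous _)
  have e : ∀ H, MeasurableSet H → σ H = c * ν.real H - R (m H) x := fun H mH => by
    simp only [σ, VectorMeasure.sub_apply, VectorMeasure.smul_apply,
      Measure.toSignedMeasure_apply_measurable mH]
    rfl
  obtain ⟨F, f1, f2, f3, f4⟩ := σ.exists_subset_restrict_nonpos (i := G) (by rw [e G mG]; linarith)
  refine ⟨F, f2, f1, fun h0 => ?_, fun H h1 mH => ?_⟩
  · have h1 : ν.real F = 0 := by rw [measureReal_def, h0, ENNReal.toReal_zero]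
    have h2 := hm F
    rw [h1, norm_le_zero_iff] at h2
    rw [e F f1, h1, h2] at f4
    simp [R] at f4
  · have := (VectorMeasure.restrict_le_restrict_iff _ _ f1).1 f3 mH h1
    rw [e H mH] at this
    exact sub_nonpos.1 this

structure Nd (μ : Measure Ω) (ν : Measure Ω') (E : Set Ω') (X : Type) [Norm X] where
  F : Set Ω'
  A : Set Ω
  v : X
  mF : MeasurableSet F
  sF : F ⊆ E
  pF : ν F ≠ 0
  mA : MeasurableSet A
  pA : μ A ≠ 0
  nv : ‖v‖ ≤ 3

lemma step (na : ∀ A, MeasurableSet A → 0 < μ A → ∃ B ⊆ A, MeasurableSet B ∧ 0 < μ B ∧ μ B < μ A)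
    (m : VectorMeasure Ω' (X →L[𝕜] 𝕜)) (hm : ∀ G, ‖m G‖ ≤ ν.real G) {ε : ℝ} (hε : 0 < ε) {E : Set Ω'}
    (bad : ∀ F ⊆ E, MeasurableSet F → ν F ≠ 0 → ∀ y, ∃ G ⊆ F, MeasurableSet G ∧
      ε * ν.real G < ‖m G - ν.real G • y‖) (n : Nd μ ν E X) : ∃ l r : Nd μ ν E X,
      l.A ⊆ n.A ∧ r.A = n.A \ l.A ∧ l.F ⊆ n.F ∧ r.F ⊆ n.F ∧
      μ.real l.A • l.v + μ.real r.A • r.v = 0 ∧ ∃ a : ℝ,
      (∀ G ⊆ l.F, MeasurableSet G → ν G ≠ 0 →
        μ.real n.A * (a + ε) ≤ μ.real l.A * R ((ν.real G)⁻¹ • m G) l.v) ∧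
      ∀ G ⊆ r.F, MeasurableSet G → ν G ≠ 0 →
        μ.real n.A * -a ≤ μ.real r.A * R ((ν.real G)⁻¹ • m G) r.v := by
  have pos : ∀ {F}, ν F ≠ 0 → 0 < ν.real F := fun h => ENNReal.toReal_pos h (measure_ne_top _ _)
  have a0 : 0 < μ.real n.A := ENNReal.toReal_pos n.pA (measure_ne_top _ _)
  obtain ⟨B, b1, b2, b3, b4⟩ := third na n.mA n.pA
  obtain ⟨G, g1, g2, g3⟩ := bad _ n.sF n.mF n.pF ((ν.real n.F)⁻¹ • m n.F)
  obtain ⟨x, x1, x2⟩ : ∃ x : X, ‖x‖ ≤ 1 ∧
      ε * ν.real G < R (m G - ν.real G • ((ν.real n.F)⁻¹ • m n.F)) x := by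
    generalize m G - ν.real G • ((ν.real n.F)⁻¹ • m n.F) = y at *
    obtain ⟨x, x1, x2⟩ := y.exists_lt_apply_of_lt_opNorm g3
    obtain ⟨c, c1, c2⟩ := RCLike.exists_norm_eq_mul_self (y x)
    refine ⟨c • x, by rw [norm_smul, c1, one_mul]; exact x1.le, ?_⟩
    change _ < re (y (c • x))
    rwa [map_smul, smul_eq_mul, ← c2, ofReal_re]
  have hF := pos n.pF
  set a := R ((ν.real n.F)⁻¹ • m n.F) x with ha
  have Rs : ∀ (c : ℝ) (y : X →L[𝕜] 𝕜) x, R (c • y) x = c * R y x := fun c y x => by simp [R]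
  have e1 : R (m G - ν.real G • ((ν.real n.F)⁻¹ • m n.F)) x = R (m G) x - ν.real G * a := by
    rw [ha, ← Rs]; simp [R]
  have e2 : R (m (n.F \ G)) x = ν.real n.F * a - R (m G) x := by
    rw [m.of_diff g2 n.mF g1, ha, Rs, mul_inv_cancel_left₀ hF.ne']; simp [R]
  obtain ⟨F1, f1, f2, f3, f4⟩ := possub m hm x (a + ε) g2 (by linarith)
  obtain ⟨F2, f5, f6, f7, f8⟩ := possub m hm (-x) (-a) (n.mF.diff g2) (by
    rw [map_neg, e2, measureReal_diff g1 g2]
    linarith [mul_nonneg hε.le (measureReal_nonneg (μ := ν) (s := G))])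
  have p1 : 0 < μ.real B := by linarith
  have p2 : 0 < μ.real (n.A \ B) := by linarith
  have nz : ∀ {S}, 0 < μ.real S → μ S ≠ 0 := fun h h0 => by simp [measureReal_def, h0] at h
  have nv : ∀ {c : ℝ} {x : X}, 0 < c → μ.real n.A ≤ 3 * c → ‖x‖ ≤ 1 → ‖(μ.real n.A / c) • x‖ ≤ 3 :=
    fun hc h hx => by
      rw [norm_smul, Real.norm_of_nonneg (by positivity)]
      exact (mul_le_of_le_one_right (by positivity) hx).trans ((div_le_iff₀ hc).2 h)
  refine ⟨⟨F1, B, (μ.real n.A / μ.real B) • x, f2, (f1.trans g1).trans n.sF, f3, b2, nz p1, nv p1 b3 x1⟩,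
    ⟨F2, n.A \ B, (μ.real n.A / μ.real (n.A \ B)) • -x, f6, (f5.trans diff_subset).trans n.sF, f7,
      n.mA.diff b2, nz p2, nv p2 b4 (by rwa [norm_neg])⟩, b1, rfl, f1.trans g1,
    f5.trans diff_subset, ?_, a, fun H h1 h2 h3 => ?_, fun H h1 h2 h3 => ?_⟩
  · simp only [smul_smul, mul_div_cancel₀ _ p1.ne', mul_div_cancel₀ _ p2.ne', smul_neg, add_neg_cancel]
  all_goals
    simp only [map_smul, smul_eq_mul, ← mul_assoc, mul_div_cancel₀ _ p1.ne', mul_div_cancel₀ _ p2.ne']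
    refine mul_le_mul_of_nonneg_left ?_ a0.le
    rw [Rs, le_inv_mul_iff₀' (pos h3)]
  exacts [f4 H h1 h2, f8 H h1 h2]

omit [IsProbabilityMeasure μ] in
lemma pair (p q : ℝ≥0∞) [Fact (1 ≤ p)] [Fact (1 ≤ q)] [q.HolderConjugate p] :
    ∃ φ : Lp (X →L[𝕜] 𝕜) q μ → Lp X p μ →L[ℝ] ℝ, (∀ g f, φ g f = re (∫ t, g t (f t) ∂μ)) ∧
      ∀ g, ‖g‖ ≤ 1 → ∀ f, φ g f ≤ ‖f‖ := by
  let B := ContinuousLinearMap.id 𝕜 (X →L[𝕜] 𝕜)
  have φ1 : ∀ g f, (reCLM ∘L (B.lpPairing μ q p g).restrictScalars ℝ) f = re (∫ t, g t (f t) ∂μ) :=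
    fun g f => congrArg re (B.lpPairing_eq_integral g f)
  refine ⟨_, φ1, fun g hg f => ?_⟩
  have h1 : ∫ t, g t (f t) ∂μ = L1.integral (B.holder 1 g f) := by
    rw [L1.integral_eq_integral]; exact (integral_congr_ae (B.coeFn_holder g f)).symm
  have h2 : ‖B‖ ≤ 1 := ContinuousLinearMap.norm_id_le
  rw [φ1, h1]
  exact (re_le_norm _).trans ((L1.norm_integral_le _).trans ((B.norm_holder_apply_apply_le g f).trans
    (mul_le_of_le_one_left (norm_nonneg _) (mul_le_one₀ h2 (norm_nonneg _) hg))))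

theorem tree {p q : ℝ≥0∞} [Fact (1 ≤ p)] [Fact (1 ≤ q)] [q.HolderConjugate p] [CompleteSpace X]
    (na : ∀ A, MeasurableSet A → 0 < μ A → ∃ B ⊆ A, MeasurableSet B ∧ 0 < μ B ∧ μ B < μ A)
    (at_ : ∀ f : Lp X p μ, ∃ g : Lp (X →L[𝕜] 𝕜) q μ, ‖g‖ ≤ 1 ∧ ∫ t, g t (f t) ∂μ = ‖f‖)
    (m : VectorMeasure Ω' (X →L[𝕜] 𝕜)) (hm : ∀ G, ‖m G‖ ≤ ν.real G) {ε : ℝ} (hε : 0 < ε) {E : Set Ω'}
    (mE : MeasurableSet E) (pE : ν E ≠ 0) (bad : ∀ F ⊆ E, MeasurableSet F → ν F ≠ 0 → ∀ y,
      ∃ G ⊆ F, MeasurableSet G ∧ ε * ν.real G < ‖m G - ν.real G • y‖) : False := by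
  classical
  choose l r c1 c2 c3 c4 c5 a c6 c7 using step na m hm hε bad
  obtain ⟨N, N0, Ns⟩ : ∃ N : ℕ → SimpleFunc Ω (Nd μ ν E X),
      (∀ t, N 0 t = ⟨E, univ, 0, mE, subset_rfl, pE, .univ, by simp, by simp⟩) ∧
      ∀ k t, N (k + 1) t = if t ∈ (l (N k t)).A then l (N k t) else r (N k t) :=
    ⟨fun k => Nat.rec (.const Ω ⟨E, univ, 0, mE, subset_rfl, pE, .univ, by simp, by simp⟩)
      (fun _ f => f.bind fun n => .piecewise (l n).A (l n).mA (.const Ω (l n)) (.const Ω (r n))) k,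
      fun _ => rfl, fun _ _ => rfl⟩
  have self : ∀ k t, t ∈ (N k t).A := fun k t => by
    induction k with
    | zero => rw [N0]; trivial
    | succ k ih =>
      rw [Ns]; split_ifs with h
      exacts [h, by rw [c2]; exact ⟨ih, h⟩]
  have sub : ∀ k t, (N (k + 1) t).A ⊆ (N k t).A ∧ (N (k + 1) t).F ⊆ (N k t).F := fun k t => by
    rw [Ns]; split_ifs
    exacts [⟨c1 _, c3 _⟩, ⟨by rw [c2]; exact diff_subset, c4 _⟩]
  have sub' : ∀ j k t, j ≤ k → (N k t).A ⊆ (N j t).A ∧ (N k t).F ⊆ (N j t).F := fun j k t h => by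
    induction k, h using Nat.le_induction with
    | base => exact ⟨subset_rfl, subset_rfl⟩
    | succ k _ ih => exact ⟨(sub k t).1.trans ih.1, (sub k t).2.trans ih.2⟩
  have fib : ∀ k t s, s ∈ (N k t).A → N k s = N k t := fun k t s h => by
    induction k with
    | zero => rw [N0, N0]
    | succ k ih =>
      have e := ih ((sub k t).1 h)
      rw [Ns] at h
      rw [Ns, Ns, e]
      split_ifs at h with h1
      · rw [if_pos h, if_pos h1]
      · rw [c2] at h; rw [if_neg h.2, if_neg h1]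
  have dec : ∀ k (c : ℝ) (h : Ω → ℝ), Integrable h μ → (∀ t, c * μ.real (N k t).A ≤
      (∫ s in (l (N k t)).A, h s ∂μ) + ∫ s in (r (N k t)).A, h s ∂μ) → c ≤ ∫ s, h s ∂μ :=
    fun k c h hi hc => by
      have : ∀ (h : Ω → ℝ), Integrable h μ → ∫ s, h s ∂μ = ∑ n ∈ (N k).range, ∫ s in n.A, h s ∂μ :=
        fun h hi => by
          simp only [← integral_indicator (Nd.mA _)]
          rw [← integral_finsetSum _ fun n _ => hi.indicator n.mA]
          congr 1; ext s
          rw [Finset.sum_eq_single_of_mem (N k s) (SimpleFunc.mem_range_self _ _),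
            indicator_of_mem (self k s)]
          intro n hn hn'
          obtain ⟨t, rfl⟩ := SimpleFunc.mem_range.1 hn
          exact indicator_of_notMem (fun h => hn' (fib k t s h).symm) _
      have h1 := this _ (integrable_const c)
      rw [integral_const, probReal_univ, one_smul] at h1
      rw [h1, this h hi]
      refine Finset.sum_le_sum fun n hn => ?_
      obtain ⟨t, rfl⟩ := SimpleFunc.mem_range.1 hn
      rw [setIntegral_const, smul_eq_mul, mul_comm, ← union_diff_cancel (c1 (N k t)),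
        setIntegral_union disjoint_sdiff_right ((N k t).mA.diff (l _).mA) hi.integrableOn
          hi.integrableOn, ← c2, c2, union_diff_cancel (c1 _), ← c2]
      exact hc t
  have Nl : ∀ k t, ∀ s ∈ (l (N k t)).A, N (k + 1) s = l (N k t) := fun k t s h => by
    rw [Ns, fib k t s (c1 _ h), if_pos h]
  have Nr : ∀ k t, ∀ s ∈ (r (N k t)).A, N (k + 1) s = r (N k t) := fun k t s h => by
    rw [c2] at h; rw [Ns, fib k t s h.1, if_neg h.2]
  let F : ℕ → SimpleFunc Ω X := fun k => (N (k + 1)).map Nd.v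
  have nF : ∀ k t, ‖F k t‖ ≤ 3 := fun k t => Nd.nv _
  have mF : ∀ k (p : ℝ≥0∞), MemLp (F k) p μ := fun k p => (F k).memLp_of_isFiniteMeasure p μ
  have iF : ∀ k {g : Ω → X →L[𝕜] 𝕜}, Integrable g μ → Integrable (fun t => R (g t) (F k t)) μ :=
    fun k g hg => (hg.norm.mul_const 3).mono' (continuous_re.comp_aestronglyMeasurable
      ((ContinuousLinearMap.id 𝕜 (X →L[𝕜] 𝕜)).aestronglyMeasurable_comp₂ hg.1 (mF k 1).1))
      (.of_forall fun t => (R_le _ _).trans (by gcongr; exact nF k t))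
  have null : ∀ g : Ω → X →L[𝕜] 𝕜, Integrable g μ →
      Tendsto (fun k => ∫ t, R (g t) (F k t) ∂μ) atTop (𝓝 0) := by
    intro g hg
    refine Integrable.induction (μ := μ) (fun g : Ω → X →L[𝕜] 𝕜 =>
      Tendsto (fun k => ∫ t, R (g t) (F k t) ∂μ) atTop (𝓝 0)) (fun y S mS _ => ?_)
      (fun f g _ hf hg h1 h2 => ?_) ?_ (fun f g h _ h1 => h1.congr fun k =>
        integral_congr_ae (h.mono fun t ht => by simp only [ht])) hg
    · have md : ∀ k, MemLp (fun t => R y (F k t)) 2 μ := fun k => (R y).comp_memLp' (mF k 2)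
      refine (wnull (fun k => (md k).toLp _) (C := ‖y‖ * 3) (fun k => ?_) (fun j k hjk => ?_)
        (indicatorConstLp 2 mS (measure_ne_top _ _) 1)).congr fun k => ?_
      · simpa [measureUnivNNReal] using Lp.norm_le_of_ae_bound (f := (md k).toLp _) (C := ‖y‖ * 3) (by positivity) ((md k).coeFn_toLp.mono
          fun t ht => by
            rw [ht]; exact (R_le _ _).trans (mul_le_mul_of_nonneg_left (nF k t) (norm_nonneg y)))
      · have z : ∀ c : ℝ, 0 ≤ ∫ t, c * (R y (F j t) * R y (F k t)) ∂μ := fun c =>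
          dec k 0 _ (((md j).integrable_mul (md k)).const_mul c) fun t => by
            have e : ∀ s ∈ (N k t).A, F j s = F j t := fun s hs =>
              congrArg Nd.v (fib (j + 1) t s ((sub' (j + 1) k t hjk).1 hs))
            rw [setIntegral_congr_fun (l _).mA (g := fun _ => c * (R y (F j t) * R y (l (N k t)).v))
              fun s hs => by simp only [e s (c1 _ hs), ← Nl k t s hs]; rfl,
              setIntegral_congr_fun (r _).mA (g := fun _ => c * (R y (F j t) * R y (r (N k t)).v))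
              fun s hs => by
                simp only [e s ((c2 _).subset hs).1, ← Nr k t s hs]; rfl,
              setIntegral_const, setIntegral_const]
            have := congrArg (R y) (c5 (N k t))
            simp only [map_add, map_smul, smul_eq_mul, map_zero] at this ⊢
            exact le_of_eq (by linear_combination (-c * R y (F j t)) * this)
        have z1 := z 1
        have z2 := z (-1)
        rw [integral_const_mul] at z1 z2
        rw [L2.inner_def, integral_congr_ae (g := fun t => R y (F j t) * R y (F k t))]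
        · linarith
        · filter_upwards [(md j).coeFn_toLp, (md k).coeFn_toLp] with t h1 h2
          rw [h1, h2]; exact mul_comm _ _
      · rw [real_inner_comm, L2.inner_indicatorConstLp_one, setIntegral_congr_ae mS
          ((md k).coeFn_toLp.mono fun _ h _ => h), ← integral_indicator mS]
        congr 1; ext t
        by_cases h : t ∈ S <;> simp [h, R]
    · have := h1.add h2
      rw [add_zero] at this
      refine this.congr fun k => ?_
      rw [← integral_add (iF _ hf) (iF _ hg)]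
      simp [R]
    · refine Equicontinuous.isClosed_setOfPred_tendsto (f := fun _ => 0)
        (LipschitzWith.uniformEquicontinuous _ 3 fun k => .of_dist_le_mul fun f g => ?_).equicontinuous
        continuous_const
      have hf := L1.integrable_coeFn f
      have hg := L1.integrable_coeFn g
      rw [dist_eq_norm, ← integral_sub (iF _ hf) (iF _ hg), L1.dist_eq_integral_dist,
        ← integral_const_mul]
      refine norm_integral_le_of_norm_le ((hf.sub hg).norm.const_mul 3 |>.congr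
        (.of_forall fun t => by simp [dist_eq_norm])) (.of_forall fun t => ?_)
      have := (R_le (f t - g t) (F k t)).trans (mul_le_mul_of_nonneg_left (nF k t) (norm_nonneg _))
      simpa [R, dist_eq_norm, mul_comm] using this
  obtain ⟨φ, φ1, φ2⟩ := pair (𝕜 := 𝕜) (X := X) (μ := μ) p q
  have φ3 : ∀ (g : Lp (X →L[𝕜] 𝕜) q μ) k, φ g ((mF k p).toLp _) = ∫ t, R (g t) (F k t) ∂μ :=
    fun g k => by
      have : Integrable (fun t => g t ((mF k p).toLp _ t)) μ :=
        (ContinuousLinearMap.id 𝕜 (X →L[𝕜] 𝕜)).integrable_of_bilin_of_bdd_right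
          3 ((Lp.memLp g).integrable Fact.out) (Lp.memLp _).1
          ((mF k p).coeFn_toLp.mono fun t ht => ht ▸ nF k t)
      rw [φ1, ← integral_re this]
      exact integral_congr_ae ((mF k p).coeFn_toLp.mono fun t ht => by simp only [ht]; rfl)
  refine simons (fun k => (mF k p).toLp _) (K := 3) (fun k => ?_) hε (fun y hy => ?_) fun v => ?_
  · simpa [measureUnivNNReal] using Lp.norm_le_of_ae_bound (f := (mF k p).toLp _) (C := 3) (by positivity)
      ((mF k p).coeFn_toLp.mono fun t ht => ht ▸ nF k t)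
  · let g : ℕ → SimpleFunc Ω (X →L[𝕜] 𝕜) := fun M => (N M).map fun n => (ν.real n.F)⁻¹ • m n.F
    have mg := fun M (q : ℝ≥0∞) => (g M).memLp_of_isFiniteMeasure q μ
    have : ∀ᶠ M in atTop, ε ≤ φ ((mg M q).toLp _) y := by
      refine convexHull_min (t := {y | ∀ᶠ M in atTop, ε ≤ φ ((mg M q).toLp _) y}) ?_
        (fun y hy z hz s t hs ht hst => ?_) hy
      · rintro _ ⟨k, rfl⟩
        filter_upwards [eventually_gt_atTop k] with M hM
        rw [φ3, integral_congr_ae (g := fun t => R (g M t) (F k t))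
          ((mg M q).coeFn_toLp.mono fun t ht => by simp only [ht])]
        have hi := iF k ((mg M 1).integrable le_rfl)
        refine dec k ε _ hi fun t => ?_
        have p1 : 0 < μ.real (l (N k t)).A := ENNReal.toReal_pos (Nd.pA _) (measure_ne_top _ _)
        have p2 : 0 < μ.real (r (N k t)).A := ENNReal.toReal_pos (Nd.pA _) (measure_ne_top _ _)
        have h1 := setIntegral_ge_of_const_le_real (l (N k t)).mA (measure_ne_top μ _)
          (c := μ.real (N k t).A * (a (N k t) + ε) / μ.real (l (N k t)).A) (fun s hs => by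
            have := c6 (N k t) _ (Nl k t s hs ▸ (sub' _ _ s hM).2) (N M s).mF (N M s).pF
            rw [div_le_iff₀' p1]
            rw [← Nl k t s hs] at this ⊢
            exact this) hi.integrableOn
        have h2 := setIntegral_ge_of_const_le_real (r (N k t)).mA (measure_ne_top μ _)
          (c := μ.real (N k t).A * -a (N k t) / μ.real (r (N k t)).A) (fun s hs => by
            have := c7 (N k t) _ (Nr k t s hs ▸ (sub' _ _ s hM).2) (N M s).mF (N M s).pF
            rw [div_le_iff₀' p2]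
            rw [← Nr k t s hs] at this ⊢
            exact this) hi.integrableOn
        rw [div_mul_cancel₀ _ p1.ne'] at h1
        rw [div_mul_cancel₀ _ p2.ne'] at h2
        linarith
      · filter_upwards [hy, hz] with M h1 h2
        rw [map_add, map_smul, map_smul, smul_eq_mul, smul_eq_mul]
        nlinarith
    obtain ⟨M, hM⟩ := this.exists
    refine hM.trans (φ2 _ ?_ y)
    simpa [measureUnivNNReal] using Lp.norm_le_of_ae_bound (f := (mg M q).toLp _) zero_le_one ((mg M q).coeFn_toLp.mono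
      fun t ht => by
        have := ENNReal.toReal_pos (N M t).pF (measure_ne_top _ _)
        rw [ht]
        refine (norm_smul_le (ν.real (N M t).F)⁻¹ (m (N M t).F)).trans ?_
        rw [Real.norm_of_nonneg (by positivity)]
        exact (inv_mul_le_one₀ this).2 (hm _))
  · obtain ⟨g, g1, g2⟩ := at_ v
    refine ⟨φ g, by rw [φ1, g2, ofReal_re], φ2 g g1, ?_⟩
    simp only [φ3]
    exact null g ((Lp.memLp g).integrable Fact.out)

def RNP (Y : Type) [NormedAddCommGroup Y] [NormedSpace ℝ Y] : Prop :=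
  ∀ (Ω' : Type) [MeasurableSpace Ω'] (ν : Measure Ω') [IsFiniteMeasure ν] (m : VectorMeasure Ω' Y),
    (∀ s, MeasurableSet s → ν s = 0 → m s = 0) → m.variation univ < ⊤ →
      ∃ f, Integrable f ν ∧ ∀ s, MeasurableSet s → m s = ∫ t in s, f t ∂ν

lemma red {Y : Type} [NormedAddCommGroup Y] [NormedSpace ℝ Y] [CompleteSpace Y]
    (h : ∀ (Ω' : Type) [MeasurableSpace Ω'] (ν : Measure Ω') [IsFiniteMeasure ν]
      (m : VectorMeasure Ω' Y), (∀ G, ‖m G‖ ≤ ν.real G) → ∀ ε > 0, ∀ E, MeasurableSet E → ν E ≠ 0 →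
      (∀ F ⊆ E, MeasurableSet F → ν F ≠ 0 → ∀ y,
        ∃ G ⊆ F, MeasurableSet G ∧ ε * ν.real G < ‖m G - ν.real G • y‖) → False) : RNP Y := by
  intro Ω' _ ν _ m ac bv
  haveI : IsFiniteMeasure m.variation := ⟨bv⟩
  have hm : ∀ G, ‖m G‖ ≤ m.variation.real G := fun G => m.norm_measure_le_variation
  have hac : m.variation ≪ ν := .mk fun s ms hs => (m.variation_apply_eq_zero ms).2
    fun t ht mt => ac t mt (measure_mono_null ht hs)
  obtain ⟨f, f1, f2⟩ := rieffel m hm fun ε hε E mE pE => by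
    by_contra! hn
    exact h _ _ m hm ε hε E mE pE hn
  exact ⟨_, (integrable_rnDeriv_smul_iff hac).2 f1, fun s ms => by
    rw [setIntegral_rnDeriv_smul hac ms, f2 s ms]⟩

theorem main {𝕜 X Ω : Type} [RCLike 𝕜] [NormedAddCommGroup X] [NormedSpace 𝕜 X] [CompleteSpace X]
    [MeasurableSpace Ω] {μ : Measure Ω} [IsProbabilityMeasure μ]
    {p q : ℝ≥0∞} [Fact (1 ≤ p)] [Fact (1 ≤ q)] [p.HolderConjugate q]
    (na : ∀ A, MeasurableSet A → 0 < μ A → ∃ B ⊆ A, MeasurableSet B ∧ 0 < μ B ∧ μ B < μ A)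
    (at_ : ∀ f : Lp X p μ, ∃ g : Lp (X →L[𝕜] 𝕜) q μ, ‖g‖ ≤ 1 ∧ ∫ t, g t (f t) ∂μ = ‖f‖) :
    RNP (X →L[𝕜] 𝕜) := by
  letI : NormedSpace ℝ X := NormedSpace.restrictScalars ℝ 𝕜 X
  haveI : IsScalarTower ℝ 𝕜 X := RestrictScalars.isScalarTower ℝ 𝕜 X
  haveI : q.HolderConjugate p := ENNReal.HolderConjugate.symm
  exact red fun _ _ _ _ m hm _ hε _ mE pE hn => tree na at_ m hm hε mE pE hn

end Pool.Agent.H.MP_01d06f_an
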